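import Mathlib

/-!
# Automorphism groups of the wreath-type blow-up of a 1-design (MP_482303_co)
-/

namespace Pool.Agent.Results.MP_482303_co.WreathBlowUp

open Finset

universe u v

variable {Q : Type u}

/-- The full automorphism group of a design with block set `𝓑`: the permutations of the points
mapping the block set onto itself. -/
def autGroup (𝓑 : Set (Finset Q)) : Subgroup (Equiv.Perm Q) where
  carrier := {g | (fun B : Finset Q => B.map g.toEmbedding) '' 𝓑 = 𝓑}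
  mul_mem' := by
    intro a b ha hb
    simp only [Set.mem_ofPred_eq] at ha hb ⊢
    conv_rhs => rw [← ha, ← hb, Set.image_image]
    apply Set.image_congr
    intro B _
    simp only [Finset.map_map]
    congr 1
  one_mem' := by
    simp only [Set.mem_ofPred_eq]
    have : (fun B : Finset Q => B.map (1 : Equiv.Perm Q).toEmbedding) = id := by
      funext B
      ext x
      rw [Finset.mem_map_equiv]
      exact Iff.rfl
    rw [this, Set.image_id]
  inv_mem' := by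
    intro a ha
    simp only [Set.mem_ofPred_eq] at ha ⊢
    conv_lhs => rw [← ha, Set.image_image]
    have : ∀ B : Finset Q, (B.map a.toEmbedding).map (a⁻¹).toEmbedding = B := by
      intro B
      ext x
      rw [Finset.mem_map_equiv, Finset.mem_map_equiv]
      show a.symm (a x) ∈ B ↔ x ∈ B
      rw [Equiv.symm_apply_apply]
    simp [this]

theorem mem_autGroup {𝓑 : Set (Finset Q)} {g : Equiv.Perm Q} :
    g ∈ autGroup 𝓑 ↔ ∀ B : Finset Q, B.map g.toEmbedding ∈ 𝓑 ↔ B ∈ 𝓑 := by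
  constructor
  · intro h B
    have h' : (fun B : Finset Q => B.map g.toEmbedding) '' 𝓑 = 𝓑 := h
    constructor
    · intro hB
      rw [← h'] at hB
      obtain ⟨C, hC, hCB⟩ := hB
      have : C = B := Finset.map_injective _ hCB
      exact this ▸ hC
    · intro hB
      rw [← h']
      exact ⟨B, hB, rfl⟩
  · intro h
    show (fun B : Finset Q => B.map g.toEmbedding) '' 𝓑 = 𝓑
    ext B
    constructor
    · rintro ⟨C, hC, rfl⟩
      exact (h C).2 hC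
    · intro hB
      refine ⟨B.map g.symm.toEmbedding, ?_, ?_⟩
      · rw [← h]
        have : (B.map g.symm.toEmbedding).map g.toEmbedding = B := by
          ext x; simp [Finset.mem_map_equiv]
        rwa [this]
      · ext x; simp [Finset.mem_map_equiv]

/-- `𝓑` is (the block set of) a 1-design with block size `k`, each point being in exactly `r`
blocks. -/
structure IsOneDesign {P : Type u} [Fintype P] [DecidableEq P] (𝓑 : Finset (Finset P))
    (k r : ℕ) : Prop where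
  card_block : ∀ B ∈ 𝓑, B.card = k
  degree : ∀ p : P, (𝓑.filter (fun B => p ∈ B)).card = r

/-- The block set of `D(𝓑, Δ)`: the sets `B ⊆ P × Δ` such that for some `i` the row `i` of `B` is
a block of `𝓑` and all the other rows of `B` are singletons. -/
def blowUp {P : Type u} (𝓑 : Set (Finset P)) (Δ : Type v) : Set (Finset (P × Δ)) :=
  {B | ∃ i : Δ, (∃ B₀ ∈ 𝓑, ∀ x, (x, i) ∈ B ↔ x ∈ B₀) ∧ ∀ j, j ≠ i → ∃! x, (x, j) ∈ B}

/-- The wreath product `G ≀ Sym(Δ)` in its imprimitive action on `P × Δ`. -/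
def wreath {P : Type u} (G : Subgroup (Equiv.Perm P)) (Δ : Type v) :
    Subgroup (Equiv.Perm (P × Δ)) where
  carrier := {g | ∃ (f : Δ → Equiv.Perm P) (σ : Equiv.Perm Δ), (∀ j, f j ∈ G) ∧
    ∀ x j, g (x, j) = (f j x, σ j)}
  mul_mem' := by
    rintro a b ⟨f, σ, hf, ha⟩ ⟨f', σ', hf', hb⟩
    refine ⟨fun j => f (σ' j) * f' j, σ * σ', fun j => G.mul_mem (hf _) (hf' _), ?_⟩
    intro x j
    simp [ha, hb]
  one_mem' := ⟨fun _ => 1, 1, fun _ => G.one_mem, fun _ _ => rfl⟩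
  inv_mem' := by
    rintro a ⟨f, σ, hf, ha⟩
    refine ⟨fun j => (f (σ⁻¹ j))⁻¹, σ⁻¹, fun j => G.inv_mem (hf _), ?_⟩
    intro x j
    rw [Equiv.Perm.inv_eq_iff_eq, ha]
    simp

/-- exchange relation -/
def Ex [DecidableEq Q] (𝓑 : Set (Finset Q)) (B : Finset Q) (p q : Q) : Prop :=
  q ∉ B ∧ insert q (B.erase p) ∈ 𝓑

theorem Ex_map [DecidableEq Q] {𝓑 : Set (Finset Q)} {g : Equiv.Perm Q} (hg : g ∈ autGroup 𝓑)
    (B : Finset Q) (p q : Q) : Ex 𝓑 (B.map g.toEmbedding) (g p) (g q) ↔ Ex 𝓑 B p q := by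
  unfold Ex
  have h1 : insert (g q) ((B.map g.toEmbedding).erase (g p)) =
      (insert q (B.erase p)).map g.toEmbedding := by
    rw [Finset.map_insert, Finset.map_erase]
    rfl
  rw [h1, mem_autGroup.1 hg]
  simp

/-- first invariant relation -/
def R1 [DecidableEq Q] (𝓑 : Set (Finset Q)) (p q : Q) : Prop :=
  ∃ B ∈ 𝓑, p ∈ B ∧ Ex 𝓑 B p q

theorem R1_map [DecidableEq Q] {𝓑 : Set (Finset Q)} {g : Equiv.Perm Q} (hg : g ∈ autGroup 𝓑)
    {p q : Q} (h : R1 𝓑 p q) : R1 𝓑 (g p) (g q) := by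
  obtain ⟨B, hB, hp, hE⟩ := h
  exact ⟨B.map g.toEmbedding, (mem_autGroup.1 hg B).2 hB, by simpa using hp,
    (Ex_map hg B p q).2 hE⟩

/-- second invariant relation -/
def R2 [DecidableEq Q] (𝓑 : Set (Finset Q)) (p q : Q) : Prop :=
  ∃ B ∈ 𝓑, p ∈ B ∧ (∃ p' ∈ B, p' ≠ p ∧ ∀ z, ¬ (Ex 𝓑 B p z ∧ Ex 𝓑 B p' z)) ∧ Ex 𝓑 B p q

theorem R2_map [DecidableEq Q] {𝓑 : Set (Finset Q)} {g : Equiv.Perm Q} (hg : g ∈ autGroup 𝓑)
    {p q : Q} (h : R2 𝓑 p q) : R2 𝓑 (g p) (g q) := by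
  obtain ⟨B, hB, hp, ⟨p', hp', hne, hz⟩, hE⟩ := h
  refine ⟨B.map g.toEmbedding, (mem_autGroup.1 hg B).2 hB, by simpa using hp,
    ⟨g p', by simpa using hp', by simpa using hne, ?_⟩, (Ex_map hg B p q).2 hE⟩
  intro z
  obtain ⟨z, rfl⟩ := g.surjective z
  rw [Ex_map hg, Ex_map hg]
  exact hz z

section main

variable {P : Type u} {Δ : Type v} [DecidableEq P] [DecidableEq Δ]

omit [DecidableEq P] in
/-- the standard block with special row `i`, special set `B₀`, and the points `z j` elsewhere -/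
theorem exists_block [Fintype P] [Fintype Δ] (𝓑 : Set (Finset P)) {B₀ : Finset P} (hB₀ : B₀ ∈ 𝓑)
    (i : Δ) (z : Δ → P) :
    ∃ B : Finset (P × Δ), (∀ x, (x, i) ∈ B ↔ x ∈ B₀) ∧ (∀ j, j ≠ i → ∀ x, (x, j) ∈ B ↔ x = z j) := by
  classical
  refine ⟨univ.filter (fun q : P × Δ => if q.2 = i then q.1 ∈ B₀ else q.1 = z q.2), ?_, ?_⟩
  · intro x
    simp
  · intro j hj x
    simp [hj]

/-- swapping inside a non-special row -/
theorem swap {𝓑 : Set (Finset P)} {B : Finset (P × Δ)} {i : Δ}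
    (hi : ∃ B₀ ∈ 𝓑, ∀ x, (x, i) ∈ B ↔ x ∈ B₀) (hj : ∀ j, j ≠ i → ∃! x, (x, j) ∈ B)
    {x y : P} {j : Δ} (hji : j ≠ i) (hx : (x, j) ∈ B) (hxy : y ≠ x) :
    Ex (blowUp 𝓑 Δ) B (x, j) (y, j) := by
  have huniq : ∀ w, (w, j) ∈ B → w = x := fun w hw => (hj j hji).unique hw hx
  refine ⟨fun h => hxy (huniq y h), i, ?_, ?_⟩
  · obtain ⟨B₀, hB₀, h⟩ := hi
    refine ⟨B₀, hB₀, fun w => ?_⟩
    rw [← h w]
    simp [hji, hji.symm]
  · intro j' hj'
    by_cases hjj : j' = j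
    · subst hjj
      refine ⟨y, by simp, ?_⟩
      intro w hw
      simp only [mem_insert, Prod.mk.injEq, and_true, mem_erase] at hw
      rcases hw with hw | ⟨h1, h2⟩
      · exact hw
      · exact absurd (huniq w h2) (by simpa using h1)
    · obtain ⟨w, hw, hu⟩ := hj j' hj'
      refine ⟨w, by simp [hjj, hw], ?_⟩
      intro w' hw'
      simp only [mem_insert, Prod.mk.injEq, mem_erase, hjj, and_false, false_or] at hw'
      exact hu w' hw'.2

/-- a nonspecial point can only be exchanged inside its row -/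
theorem row_of_nonspecial {𝓑 : Set (Finset P)} (hne : ∀ B₀ ∈ 𝓑, B₀.Nonempty)
    {B : Finset (P × Δ)} {i : Δ}
    (hj : ∀ j, j ≠ i → ∃! x, (x, j) ∈ B) {p q : P × Δ} (hp : p ∈ B) (hpi : p.2 ≠ i)
    (hE : Ex (blowUp 𝓑 Δ) B p q) : p.2 = q.2 := by
  by_contra hcon
  obtain ⟨hq, i', ⟨B₀, hB₀, h₀⟩, h₁⟩ := hE
  -- row `p.2` of the new block is non-empty
  have hx : ∃ x, (x, p.2) ∈ insert q (B.erase p) := by
    by_cases h : p.2 = i'
    · obtain ⟨x, hx⟩ := hne B₀ hB₀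
      exact ⟨x, by rw [h]; exact (h₀ x).2 hx⟩
    · exact (h₁ _ h).exists
  obtain ⟨x, hx⟩ := hx
  rw [mem_insert, mem_erase] at hx
  rcases hx with hx | ⟨hx1, hx2⟩
  · exact hcon (by rw [← hx])
  · apply hx1
    have : x = p.1 := (hj _ hpi).unique hx2 hp
    rw [this]

/-- case of block size at least three: an exchange takes place within a row -/
theorem row_of_three {𝓑 : Set (Finset P)} {k : ℕ} (hk : 3 ≤ k) (hcard : ∀ B₀ ∈ 𝓑, B₀.card = k)
    {B : Finset (P × Δ)} (hB : B ∈ blowUp 𝓑 Δ) {p q : P × Δ} (hp : p ∈ B)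
    (hE : Ex (blowUp 𝓑 Δ) B p q) : p.2 = q.2 := by
  obtain ⟨i, ⟨B₀, hB₀, h₀⟩, h₁⟩ := hB
  have hne : ∀ B₀ ∈ 𝓑, B₀.Nonempty := fun B₀ h => by
    rw [← Finset.card_pos, hcard B₀ h]; omega
  by_cases hpi : p.2 = i
  · by_contra hcon
    obtain ⟨hq, i', ⟨B₀', hB₀', h₀'⟩, h₁'⟩ := hE
    have hrow : ∀ x, (x, i) ∈ insert q (B.erase p) ↔ x ∈ B₀.erase p.1 := by
      intro x
      rw [mem_insert, mem_erase, mem_erase, h₀]
      constructor
      · rintro (h | ⟨h, h'⟩)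
        · exact absurd (by rw [hpi, ← h]) hcon
        · refine ⟨fun h2 => h ?_, h'⟩
          rw [h2, ← hpi]
      · rintro ⟨h, h'⟩
        refine Or.inr ⟨fun h2 => h ?_, h'⟩
        rw [← h2]
    have hpB : p.1 ∈ B₀ := by
      rw [← h₀, ← hpi]; exact hp
    have hc : (B₀.erase p.1).card = k - 1 := by
      rw [Finset.card_erase_of_mem hpB, hcard B₀ hB₀]
    by_cases hii : i' = i
    · subst hii
      have : B₀' = B₀.erase p.1 := by
        ext x
        rw [← h₀', hrow]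
      have h2 := hcard B₀' hB₀'
      rw [this, hc] at h2
      omega
    · obtain ⟨w, hw, hu⟩ := h₁' i (Ne.symm hii)
      have : B₀.erase p.1 = {w} := by
        ext x
        rw [mem_singleton, ← hrow]
        constructor
        · intro hx
          exact hu x hx
        · rintro rfl
          exact hw
      rw [this, card_singleton] at hc
      omega
  · exact row_of_nonspecial hne h₁ hp hpi hE

/-- exchanges of a special point when the block size is two -/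
theorem special_exchange {𝓑 : Set (Finset P)} (hcard : ∀ B₀ ∈ 𝓑, B₀.card = 2)
    {B : Finset (P × Δ)} {i : Δ}
    (hi : ∃ B₀ ∈ 𝓑, ∀ x, (x, i) ∈ B ↔ x ∈ B₀) (hj : ∀ j, j ≠ i → ∃! x, (x, j) ∈ B)
    {x y z : P} {j : Δ} (hji : j ≠ i) (hx : (x, i) ∈ B) (hz : (z, j) ∈ B) (hzy : y ≠ z)
    (hyz : {z, y} ∈ 𝓑) :
    Ex (blowUp 𝓑 Δ) B (x, i) (y, j) := by
  have huniq : ∀ w, (w, j) ∈ B → w = z := fun w hw => (hj j hji).unique hw hz
  refine ⟨fun h => hzy (huniq y h), j, ⟨{z, y}, hyz, ?_⟩, ?_⟩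
  · intro w
    simp only [mem_insert, Prod.mk.injEq, and_true, mem_erase, mem_singleton]
    constructor
    · rintro (h | ⟨-, h⟩)
      · exact Or.inr h
      · exact Or.inl (huniq w h)
    · rintro (h | h)
      · subst h
        exact Or.inr ⟨fun h => hji (congrArg Prod.snd h), hz⟩
      · exact Or.inl h
  · intro j' hj'
    by_cases hjj : j' = i
    · subst hjj
      obtain ⟨B₀, hB₀, h⟩ := hi
      have hxB : x ∈ B₀ := (h x).1 hx
      have hc : (B₀.erase x).card = 1 := by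
        rw [Finset.card_erase_of_mem hxB, hcard B₀ hB₀]
      obtain ⟨w, hw⟩ := Finset.card_eq_one.1 hc
      have hkey : ∀ u, (u, j') ∈ insert (y, j) (B.erase (x, j')) ↔ u = w := by
        intro u
        have : u ∈ B₀.erase x ↔ u = w := by rw [hw, mem_singleton]
        rw [← this, mem_insert, mem_erase, mem_erase, h u]
        simp [hji.symm]
      exact ⟨w, (hkey w).2 rfl, fun u hu => (hkey u).1 hu⟩
    · obtain ⟨w, hw, hu⟩ := hj j' hjj
      refine ⟨w, ?_, ?_⟩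
      · simp [hj', hw, hjj]
      · intro w' hw'
        simp only [mem_insert, Prod.mk.injEq, mem_erase, hj', and_false, false_or] at hw'
        exact hu w' hw'.2

/-- In the case of block size two, the relation `R2` implies being in the same row. -/
theorem row_of_R2 {𝓑 : Set (Finset P)} (hcard : ∀ B₀ ∈ 𝓑, B₀.card = 2)
    (hdeg : ∀ z : P, ∃ y, y ≠ z ∧ {z, y} ∈ 𝓑) (hΔ : ∀ i : Δ, ∃ j, j ≠ i)
    {p q : P × Δ} (h : R2 (blowUp 𝓑 Δ) p q) : p.2 = q.2 := by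
  obtain ⟨B, ⟨i, h₀, h₁⟩, hp, ⟨p', hp', hne, hz⟩, hE⟩ := h
  have hne' : ∀ B₀ ∈ 𝓑, B₀.Nonempty := fun B₀ h => by
    rw [← Finset.card_pos, hcard B₀ h]; omega
  by_cases hpi : p.2 = i
  · exfalso
    obtain ⟨x, i₁⟩ := p
    simp only at hpi
    subst hpi
    obtain ⟨x', j⟩ := p'
    by_cases hj : j = i₁
    · subst hj
      obtain ⟨j', hj'⟩ := hΔ j
      obtain ⟨z, hz'⟩ := (h₁ j' hj').exists
      obtain ⟨y, hy, hyz⟩ := hdeg z
      exact hz (y, j') ⟨special_exchange hcard h₀ h₁ hj' hp hz' hy hyz,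
        special_exchange hcard h₀ h₁ hj' hp' hz' hy hyz⟩
    · obtain ⟨y, hy, hyz⟩ := hdeg x'
      exact hz (y, j) ⟨special_exchange hcard h₀ h₁ hj hp hp' hy hyz,
        swap h₀ h₁ hj hp' hy⟩
  · exact row_of_nonspecial hne' h₁ hp hpi hE

theorem R1_of_row [Fintype P] [Fintype Δ] {𝓑 : Set (Finset P)} (h𝓑 : ∃ B₀, B₀ ∈ 𝓑)
    (hΔ : ∀ i : Δ, ∃ j, j ≠ i) {x y : P} {j : Δ} (hxy : y ≠ x) :
    R1 (blowUp 𝓑 Δ) (x, j) (y, j) := by
  obtain ⟨B₀, hB₀⟩ := h𝓑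
  obtain ⟨i, hi⟩ := hΔ j
  obtain ⟨B, h₀, h₁⟩ := exists_block 𝓑 hB₀ i (fun _ => x)
  have h1 : ∀ j, j ≠ i → ∃! x, (x, j) ∈ B := fun j hj => ⟨x, (h₁ j hj x).2 rfl,
    fun w hw => (h₁ j hj w).1 hw⟩
  exact ⟨B, ⟨i, ⟨B₀, hB₀, h₀⟩, h1⟩, (h₁ j hi.symm x).2 rfl,
    swap ⟨B₀, hB₀, h₀⟩ h1 hi.symm ((h₁ j hi.symm x).2 rfl) hxy⟩

theorem R2_of_row [Fintype P] [Fintype Δ] {𝓑 : Set (Finset P)} (h𝓑 : ∃ B₀, B₀ ∈ 𝓑)
    (hne : ∀ B₀ ∈ 𝓑, B₀.Nonempty)
    (hΔ : ∀ i : Δ, ∃ j, j ≠ i) (hΔ3 : ∀ i j : Δ, ∃ l, l ≠ i ∧ l ≠ j) {x y : P} {j : Δ}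
    (hxy : y ≠ x) :
    R2 (blowUp 𝓑 Δ) (x, j) (y, j) := by
  obtain ⟨B₀, hB₀⟩ := h𝓑
  obtain ⟨i, hi⟩ := hΔ j
  obtain ⟨l, hli, hlj⟩ := hΔ3 i j
  obtain ⟨B, h₀, h₁⟩ := exists_block 𝓑 hB₀ i (fun _ => x)
  have h1 : ∀ j, j ≠ i → ∃! x, (x, j) ∈ B := fun j hj => ⟨x, (h₁ j hj x).2 rfl,
    fun w hw => (h₁ j hj w).1 hw⟩
  have hxj : (x, j) ∈ B := (h₁ j hi.symm x).2 rfl
  have hxl : (x, l) ∈ B := (h₁ l hli x).2 rfl
  refine ⟨B, ⟨i, ⟨B₀, hB₀, h₀⟩, h1⟩, hxj, ⟨(x, l), hxl, by simpa using hlj, ?_⟩,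
    swap ⟨B₀, hB₀, h₀⟩ h1 hi.symm hxj hxy⟩
  rintro z ⟨hz1, hz2⟩
  have e1 := row_of_nonspecial hne h1 hxj hi.symm hz1
  have e2 := row_of_nonspecial hne h1 hxl hli hz2
  exact hlj (e2.trans e1.symm)

/-- an automorphism preserving rows induces automorphisms of the small design -/
theorem row_aut [Fintype P] [Fintype Δ] {𝓑 : Set (Finset P)} {k : ℕ} (hk : 2 ≤ k)
    (hcard : ∀ B₀ ∈ 𝓑, B₀.card = k)
    {g : Equiv.Perm (P × Δ)} (hg : g ∈ autGroup (blowUp 𝓑 Δ)) {f : Equiv.Perm P} {j j' : Δ}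
    (h : ∀ x, g (x, j) = (f x, j')) {B₀ : Finset P} (hB₀ : B₀ ∈ 𝓑) :
    B₀.map f.toEmbedding ∈ 𝓑 := by
  have hc := hcard B₀ hB₀
  obtain ⟨a, ha, b, hb, hab⟩ := Finset.one_lt_card.1 (by omega : 1 < B₀.card)
  obtain ⟨B, h₀, h₁⟩ := exists_block 𝓑 hB₀ j (fun _ => a)
  have hB : B ∈ blowUp 𝓑 Δ := ⟨j, ⟨B₀, hB₀, h₀⟩, fun j hj => ⟨a, (h₁ j hj a).2 rfl,
    fun w hw => (h₁ j hj w).1 hw⟩⟩
  have hgB := (mem_autGroup.1 hg B).2 hB
  have hrow : ∀ x, (f x, j') ∈ B.map g.toEmbedding ↔ x ∈ B₀ := by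
    intro x
    rw [← h, Finset.mem_map_equiv, Equiv.symm_apply_apply, h₀]
  obtain ⟨i', ⟨B₀', hB₀', h₀'⟩, h₁'⟩ := hgB
  by_cases hi : i' = j'
  · subst hi
    have : B₀' = B₀.map f.toEmbedding := by
      ext x
      obtain ⟨x, rfl⟩ := f.surjective x
      rw [← h₀', hrow, Finset.mem_map_equiv, Equiv.symm_apply_apply]
    rwa [← this]
  · exfalso
    have hu := h₁' j' (Ne.symm hi)
    have := hu.unique ((hrow a).2 ha) ((hrow b).2 hb)
    exact hab (f.injective this)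

omit [DecidableEq P] [DecidableEq Δ] in
theorem wreath_maps {𝓑 : Set (Finset P)} {g : Equiv.Perm (P × Δ)}
    (hg : g ∈ wreath (autGroup 𝓑) Δ) {B : Finset (P × Δ)} (hB : B ∈ blowUp 𝓑 Δ) :
    B.map g.toEmbedding ∈ blowUp 𝓑 Δ := by
  obtain ⟨f, σ, hf, h⟩ := hg
  obtain ⟨i, ⟨B₀, hB₀, h₀⟩, h₁⟩ := hB
  have hrow : ∀ x j, (f j x, σ j) ∈ B.map g.toEmbedding ↔ (x, j) ∈ B := by
    intro x j
    rw [← h, Finset.mem_map_equiv, Equiv.symm_apply_apply]
  refine ⟨σ i, ⟨B₀.map (f i).toEmbedding, (mem_autGroup.1 (hf i) B₀).2 hB₀, ?_⟩, ?_⟩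
  · intro x
    obtain ⟨x, rfl⟩ := (f i).surjective x
    rw [hrow, h₀, Finset.mem_map_equiv, Equiv.symm_apply_apply]
  · intro j hj
    obtain ⟨j, rfl⟩ := σ.surjective j
    obtain ⟨x, hx, hu⟩ := h₁ j (fun h => hj (by rw [h]))
    refine ⟨f j x, (hrow x j).2 hx, ?_⟩
    intro w hw
    obtain ⟨w, rfl⟩ := (f j).surjective w
    rw [hu w ((hrow w j).1 hw)]

omit [DecidableEq P] [DecidableEq Δ] in
theorem wreath_le {𝓑 : Set (Finset P)} : wreath (autGroup 𝓑) Δ ≤ autGroup (blowUp 𝓑 Δ) := by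
  intro g hg
  rw [mem_autGroup]
  intro B
  refine ⟨fun h => ?_, wreath_maps hg⟩
  have h2 := wreath_maps ((wreath (autGroup 𝓑) Δ).inv_mem hg) h
  have : (B.map g.toEmbedding).map (g⁻¹).toEmbedding = B := by
    ext x
    rw [Finset.mem_map_equiv, Finset.mem_map_equiv]
    show g.symm (g x) ∈ B ↔ x ∈ B
    rw [Equiv.symm_apply_apply]
  rwa [this] at h2

/-- from row preservation to the wreath product -/
theorem mem_wreath_of_rows [Fintype P] [Fintype Δ] {𝓑 : Set (Finset P)} {k : ℕ} (hk : 2 ≤ k)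
    (hcard : ∀ B₀ ∈ 𝓑, B₀.card = k)
    (hrows : ∀ g ∈ autGroup (blowUp 𝓑 Δ), ∀ p q : P × Δ, p.2 = q.2 → (g p).2 = (g q).2)
    {g : Equiv.Perm (P × Δ)} (hg : g ∈ autGroup (blowUp 𝓑 Δ)) :
    g ∈ wreath (autGroup 𝓑) Δ := by
  rcases isEmpty_or_nonempty P with hP | ⟨⟨x₀⟩⟩
  · exact ⟨fun _ => 1, 1, fun _ => one_mem _, fun x => (hP.false x).elim⟩
  have hg' : g⁻¹ ∈ autGroup (blowUp 𝓑 Δ) := inv_mem hg
  -- the induced maps
  have key : ∀ (g : Equiv.Perm (P × Δ)), g ∈ autGroup (blowUp 𝓑 Δ) → ∀ x j,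
      g (x, j) = ((g (x, j)).1, (g (x₀, j)).2) := by
    intro g hg x j
    rw [← hrows g hg (x, j) (x₀, j) rfl]
  have hginv : ∀ p, g⁻¹ (g p) = p := fun p => by
    show g.symm (g p) = p
    rw [Equiv.symm_apply_apply]
  have hginv' : ∀ p, g (g⁻¹ p) = p := fun p => by
    show g (g.symm p) = p
    rw [Equiv.apply_symm_apply]
  let σ : Equiv.Perm Δ :=
    { toFun := fun j => (g (x₀, j)).2
      invFun := fun j => (g⁻¹ (x₀, j)).2
      left_inv := by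
        intro j
        show (g⁻¹ (x₀, (g (x₀, j)).2)).2 = j
        rw [hrows g⁻¹ hg' (x₀, (g (x₀, j)).2) (g (x₀, j)) rfl, hginv]
      right_inv := by
        intro j
        show (g (x₀, (g⁻¹ (x₀, j)).2)).2 = j
        rw [hrows g hg (x₀, (g⁻¹ (x₀, j)).2) (g⁻¹ (x₀, j)) rfl, hginv'] }
  let f : Δ → Equiv.Perm P := fun j =>
    { toFun := fun x => (g (x, j)).1
      invFun := fun x => (g⁻¹ (x, σ j)).1
      left_inv := by
        intro x
        show (g⁻¹ ((g (x, j)).1, (g (x₀, j)).2)).1 = x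
        rw [← key g hg, hginv]
      right_inv := by
        intro x
        show (g ((g⁻¹ (x, σ j)).1, j)).1 = x
        have h1 : (g⁻¹ (x, σ j)) = ((g⁻¹ (x, σ j)).1, j) := by
          have h2 := key g⁻¹ hg' x (σ j)
          have h3 : (g⁻¹ (x₀, σ j)).2 = j := σ.left_inv j
          rw [h3] at h2
          exact h2
        rw [← h1, hginv'] }
  have hgf : ∀ x j, g (x, j) = (f j x, σ j) := fun x j => key g hg x j
  refine ⟨f, σ, fun j => ?_, hgf⟩
  rw [mem_autGroup]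
  intro B
  refine ⟨fun h => ?_, row_aut hk hcard hg (fun x => hgf x j)⟩
  have hgf' : ∀ x, g⁻¹ (x, σ j) = ((f j)⁻¹ x, j) := by
    intro x
    rw [Equiv.Perm.inv_eq_iff_eq, hgf]
    show (x, σ j) = (f j ((f j).symm x), σ j)
    rw [Equiv.apply_symm_apply]
  have h2 := row_aut hk hcard hg' hgf' h
  have : (B.map (f j).toEmbedding).map ((f j)⁻¹).toEmbedding = B := by
    ext x
    rw [Finset.mem_map_equiv, Finset.mem_map_equiv]
    show (f j).symm (f j x) ∈ B ↔ x ∈ B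
    rw [Equiv.symm_apply_apply]
  rwa [this] at h2

/-- **Main theorem.** For every 1-design with block size `k ≥ 2` and every `e = |Δ| ≥ 2` with
`e ≥ 3` or `k ≥ 3`, the full automorphism group of the blow-up `D(𝓑, Δ)` is the wreath product
`Aut(𝓑) ≀ Sym(Δ)` in its imprimitive action. -/
theorem result (P : Type u) [Fintype P] [DecidableEq P] (Δ : Type v) [Fintype Δ] [DecidableEq Δ]
    (𝓑 : Finset (Finset P)) (k r : ℕ) (h𝓑 : IsOneDesign 𝓑 k r) (hk : 2 ≤ k) (hr : 1 ≤ r)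
    (he : 2 ≤ Fintype.card Δ) (h : 3 ≤ Fintype.card Δ ∨ 3 ≤ k) :
    autGroup (blowUp (𝓑 : Set (Finset P)) Δ) = wreath (autGroup (𝓑 : Set (Finset P))) Δ := by
  apply le_antisymm _ wreath_le
  have hcard : ∀ B₀ ∈ (𝓑 : Set (Finset P)), B₀.card = k := fun B₀ h => h𝓑.card_block B₀ h
  have hne : ∀ B₀ ∈ (𝓑 : Set (Finset P)), B₀.Nonempty := fun B₀ h => by
    rw [← Finset.card_pos, hcard B₀ h]; omega
  have hΔ : ∀ i : Δ, ∃ j, j ≠ i := fun i => by
    haveI : Nontrivial Δ := Fintype.one_lt_card_iff_nontrivial.1 he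
    exact exists_ne i
  have hblock : ∀ p : P, ∃ B₀ ∈ 𝓑, p ∈ B₀ := by
    intro p
    have h1 := h𝓑.degree p
    have h2 : (𝓑.filter (fun B => p ∈ B)).Nonempty := by
      rw [← Finset.card_pos, h1]; omega
    obtain ⟨B, hB⟩ := h2
    rw [mem_filter] at hB
    exact ⟨B, hB.1, hB.2⟩
  intro g hg
  refine mem_wreath_of_rows hk hcard ?_ hg
  intro g hg p q hpq
  by_cases hpq' : q = p
  · rw [hpq']
  obtain ⟨x, j⟩ := p
  obtain ⟨y, j'⟩ := q
  simp only at hpq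
  subst hpq
  have hxy : y ≠ x := fun h => hpq' (by rw [h])
  obtain ⟨B₀, hB₀, -⟩ := hblock x
  by_cases hk3 : 3 ≤ k
  · have h1 : R1 (blowUp (𝓑 : Set (Finset P)) Δ) (x, j) (y, j) :=
      R1_of_row ⟨B₀, hB₀⟩ hΔ hxy
    obtain ⟨B, hB, hp, hE⟩ := R1_map hg h1
    exact row_of_three hk3 hcard hB hp hE
  · have hk2 : k = 2 := by omega
    subst hk2
    have he3 : 3 ≤ Fintype.card Δ := by omega
    have hΔ3 : ∀ i j : Δ, ∃ l, l ≠ i ∧ l ≠ j := by
      intro i j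
      by_contra hcon
      push Not at hcon
      have : (univ : Finset Δ) ⊆ {i, j} := by
        intro l _
        rw [mem_insert, mem_singleton]
        by_cases hl : l = i
        · exact Or.inl hl
        · exact Or.inr (hcon l hl)
      have h4 := Finset.card_le_card this
      rw [Finset.card_univ] at h4
      have h5 : ({i, j} : Finset Δ).card ≤ 2 := Finset.card_le_two
      omega
    have hdeg : ∀ z : P, ∃ y, y ≠ z ∧ {z, y} ∈ (𝓑 : Set (Finset P)) := by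
      intro z
      obtain ⟨B, hB, hz⟩ := hblock z
      obtain ⟨a, b, hab, rfl⟩ := Finset.card_eq_two.1 (hcard B hB)
      rw [mem_insert, mem_singleton] at hz
      rcases hz with rfl | rfl
      · exact ⟨b, hab.symm, hB⟩
      · exact ⟨a, hab, by rw [Finset.pair_comm]; exact hB⟩
    have h1 : R2 (blowUp (𝓑 : Set (Finset P)) Δ) (x, j) (y, j) :=
      R2_of_row ⟨B₀, hB₀⟩ hne hΔ hΔ3 hxy
    exact row_of_R2 hcard hdeg hΔ (R2_map hg h1)

end main

end Pool.Agent.Results.MP_482303_co.WreathBlowUp
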